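import Pool.Agent.P8H57.FPR.Global

set_option autoImplicit false

/-!
# MP_9ff724_al, Q1: excellent regular rings of prime characteristic are F-pure regular

The answer is yes. Let `R` be a regular ring of characteristic `p` such that for every prime `P` the
regular locus of `R / P` contains a nonempty set which is open in `Spec (R / P)` (every excellent
ring has this property), and let `c` be an element of `R` which lies in no minimal prime. The main
point is that the order of `c` at the points of `Spec R` is bounded: there is `N` such that `c` is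
not in `m_Q ^ N` for the maximal ideal `m_Q` of `R_Q`, for every prime `Q`. (Near the generic point of
`V(P)` the order of `c` along `V(P)` is constant, and one uses Noetherian induction.) If
`p ^ e ≥ N`, then `c` is in none of the Frobenius powers `m_Q ^ [p ^ e]`, and the map
`R → F^e_* R`, `1 ↦ F^e_* c`, is pure.
-/

universe u

namespace Pool.Agent.Results.MP_9ff724_al.ExcellentRegular

open Pool.Agent.P8H57.FPR

/-- an element in no minimal prime does not vanish in any localization of a regular ring -/
theorem ne_zero_of_notMem {R : Type u} [CommRing R]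
    (hreg : ∀ (Q : Ideal R) [Q.IsPrime], IsRegularLocalRing (Localization.AtPrime Q)) (c : R)
    (hc : ∀ Q ∈ minimalPrimes R, c ∉ Q) (P : Ideal R) [hP : P.IsPrime] :
    algebraMap R (Localization.AtPrime P) c ≠ 0 := by
  intro h
  have hregP := hreg P
  have hdom : IsDomain (Localization.AtPrime P) := Pool.Agent.H379R3.isDomain _
  have hK : (RingHom.ker (algebraMap R (Localization.AtPrime P))).IsPrime :=
    RingHom.ker_isPrime _
  refine hc (RingHom.ker (algebraMap R (Localization.AtPrime P))) ?_ (RingHom.mem_ker.2 h)
  refine ⟨⟨hK, bot_le⟩, ?_⟩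
  rintro K' ⟨hK', -⟩ hle x hx
  rw [RingHom.mem_ker, IsLocalization.map_eq_zero_iff P.primeCompl] at hx
  obtain ⟨s, hs⟩ := hx
  have h1 : (s : R) * x ∈ K' := by rw [hs]; exact Ideal.zero_mem _
  rcases hK'.mem_or_mem h1 with h2 | h2
  · exfalso
    have h3 : (s : R) ∈ RingHom.ker (algebraMap R (Localization.AtPrime P)) := hle h2
    rw [RingHom.mem_ker] at h3
    have h4 := IsLocalization.map_units (Localization.AtPrime P) s
    rw [h3] at h4
    exact not_isUnit_zero h4
  · exact h2

/-- the generic point of a domain is in the regular locus -/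
theorem bot_mem (S : Type u) [CommRing S] [IsDomain S] :
    (⟨⊥, Ideal.isPrime_bot⟩ : PrimeSpectrum S) ∈ regularLocus S := by
  change IsRegularLocalRing (Localization.AtPrime (⊥ : Ideal S))
  let : Field (Localization.AtPrime (⊥ : Ideal S)) := IsField.toField <| by
    simp [IsLocalRing.isField_iff_maximalIdeal_eq, ← Localization.AtPrime.map_eq_maximalIdeal]
  infer_instance

/-- **F-pure regularity of excellent regular rings.** Let `R` be a regular ring of prime
characteristic `p`.
1. If `R` is excellent, then `R` is F-pure regular.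
2. It is enough that for every prime `P` of `R` the regular locus of `R / P` contains a nonempty
open subset of `Spec (R / P)`; nothing is assumed about formal fibres, chains of primes or algebras
of finite type. -/
theorem result (R : Type u) [CommRing R] [IsRegularRing R] (p : ℕ) [Fact p.Prime] [CharP R p] :
    (IsExcellentRing R → IsFPureRegular R p) ∧
    ((∀ P : Ideal R, P.IsPrime → ∃ U : Set (PrimeSpectrum (R ⧸ P)), IsOpen U ∧ U.Nonempty ∧
      U ⊆ regularLocus (R ⧸ P)) → IsFPureRegular R p) := by
  have hmain : (∀ P : Ideal R, P.IsPrime → ∃ U : Set (PrimeSpectrum (R ⧸ P)), IsOpen U ∧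
      U.Nonempty ∧ U ⊆ regularLocus (R ⧸ P)) → IsFPureRegular R p := by
    intro hJ c hc
    have hreg : ∀ (Q : Ideal R) [Q.IsPrime], IsRegularLocalRing (Localization.AtPrime Q) :=
      fun Q _ => IsRegularRing.isRegularLocalRing_localization Q
    obtain ⟨N, hN⟩ := exists_bound hreg (by
      intro P hP
      obtain ⟨U, hU, ⟨x, hx⟩, hUr⟩ := hJ P hP
      obtain ⟨V, ⟨g', rfl⟩, hxV, hVU⟩ :=
        PrimeSpectrum.isTopologicalBasis_basic_opens.exists_subset_of_mem_open hx hU
      obtain ⟨g, rfl⟩ := Ideal.Quotient.mk_surjective g'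
      refine ⟨g, fun hg => ?_, fun Q' hQ' hgQ => ?_⟩
      · have h1 : Ideal.Quotient.mk P g ∉ x.asIdeal := hxV
        rw [Ideal.Quotient.eq_zero_iff_mem.2 hg] at h1
        exact h1 (Ideal.zero_mem _)
      · have h1 : (⟨Q', hQ'⟩ : PrimeSpectrum (R ⧸ P)) ∈ U := hVU hgQ
        exact hUr h1) c (fun P _ => ne_zero_of_notMem hreg c hc P) ⊥
    have hp : 1 < p := (Fact.out : p.Prime).one_lt
    refine ⟨N + 1, Nat.le_add_left _ _, isPure_of_local p (N + 1) hreg c fun Q _ h => ?_⟩
    refine hN Q bot_le (Ideal.pow_le_pow_right ?_ h)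
    exact (Nat.le_succ N).trans (Nat.lt_pow_self hp).le
  refine ⟨fun hex => hmain fun P hP => ?_, hmain⟩
  refine ⟨regularLocus (R ⧸ P), hex.regularLocusOpen (R ⧸ P) ?_, ⟨_, bot_mem (R ⧸ P)⟩, le_rfl⟩
  exact Algebra.FiniteType.of_surjective (Ideal.Quotient.mkₐ R P)
    (Ideal.Quotient.mkₐ_surjective R P)

end Pool.Agent.Results.MP_9ff724_al.ExcellentRegular
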